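import Pool.Agent.N58.Sz.Ker

set_option autoImplicit false

namespace Pool.Agent.Results.MP_18be4d_al.SuzukiClassNumber

/-- The intersection of the kernels `{g | χ g = χ 1}` of the irreducible complex characters `χ`
of `G` whose degree is not divisible by `p`. -/
def kerIrr (p : ℕ) (G : Type) [Group G] : Set G :=
  {g | ∀ (V : Type) [AddCommGroup V] [Module ℂ V] [FiniteDimensional ℂ V]
    (ρ : Representation ℂ G V), ρ.IsIrreducible → ¬ p ∣ Module.finrank ℂ V →
      ρ.character g = ρ.character 1}

/-- The Fitting subgroup of a finite group, generated by all nilpotent normal subgroups. -/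
def fitting (G : Type) [Group G] : Subgroup G :=
  sSup {N : Subgroup G | N.Normal ∧ Group.IsNilpotent N}

open Pool.Agent.N58.Sz in
theorem num_ineq : ((18513588 : ℕ) : ℝ) < ((p0 : ℕ) : ℝ) / Real.logb 2 ((p0 : ℕ) : ℝ) := by
  have hl2 : (0.6931471803 : ℝ) < Real.log 2 := Real.log_two_gt_d9
  have hl2p : 0 < Real.log 2 := Real.log_pos (by norm_num)
  have h1 : Real.log (536903681 : ℝ) = 29 * Real.log 2 + Real.log (536903681 / 2 ^ 29) := by
    rw [Real.log_div (by norm_num) (by norm_num), Real.log_pow]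
    push_cast
    ring
  have h2 : Real.log (536903681 / 2 ^ 29) ≤ 536903681 / 2 ^ 29 - 1 :=
    Real.log_le_sub_one_of_pos (by norm_num)
  have h3 : Real.logb 2 (536903681 : ℝ) < 29.0005 := by
    rw [Real.logb, div_lt_iff₀ hl2p, h1]
    have : (536903681 / 2 ^ 29 - 1 : ℝ) < 0.00007 := by norm_num
    nlinarith
  have h4 : 0 < Real.logb 2 (536903681 : ℝ) := Real.logb_pos (by norm_num) (by norm_num)
  have h5 : ((p0 : ℕ) : ℝ) = 536903681 := by norm_num
  rw [h5, lt_div_iff₀ h4]
  push_cast
  nlinarith

instance galoisQ : Pool.Agent.N58.Sz.Q29 (GaloisField 2 29) where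
  card := GaloisField.card 2 29 (by norm_num)

open Pool.Agent.N58.Sz in
/-- Negated form of Q1: there are a prime `p` (namely `2^29 + 2^15 + 1`) and a finite group `G`
such that the irreducible characters of degree prime to `p` have trivial common kernel, `p`
divides `|G : F(G)|`, and `k(G) < p / log_2 p`. -/
theorem result : ∃ (p : ℕ) (G : Type) (_ : Group G) (_ : Finite G),
    p = 2 ^ 29 + 2 ^ 15 + 1 ∧ p.Prime ∧
    kerIrr p G = {1} ∧ p ∣ (fitting G).index ∧
    (Nat.card (ConjClasses G) : ℝ) < (p : ℝ) / Real.logb 2 (p : ℝ) := by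
  refine ⟨p0, GG (GaloisField 2 29), inferInstance, inferInstance, by norm_num, prime_p0,
    ?_, ?_, ?_⟩
  · ext g
    rw [Set.mem_singleton_iff]
    constructor
    · intro h
      exact ker_trivial g (fun V _ _ _ ρ h1 h2 => h V ρ h1 h2)
    · rintro rfl V _ _ _ ρ h1 h2
      rfl
  · have h1 : fitting (GG (GaloisField 2 29)) = ⊥ := by
      unfold fitting
      rw [sSup_eq_bot]
      rintro N ⟨hN, hnil⟩
      exact nilp_bot N hnil
    rw [h1, Subgroup.index_bot, card_GG, card_S]
    refine dvd_mul_of_dvd_left (dvd_mul_of_dvd_right ?_ _) _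
    exact ⟨5 * m0, by norm_num⟩
  · refine lt_of_le_of_lt ?_ num_ineq
    exact_mod_cast class_bound

end Pool.Agent.Results.MP_18be4d_al.SuzukiClassNumber
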